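import Pool.Agent.RT16.FamR
import Pool.Agent.RT16.Minor

/-!
# DW54/Defs (MP_93e89b_co): graphs obtained from `K_p` by star moves

A star move at a triangle `u v w` deletes its three edges and adds a new vertex, joined to `u`, `v`, `w` and to all
common neighbours of `u`, `v`, `w` (a Delta-Y exchange followed by the addition of edges).
-/

set_option autoImplicit false

namespace Pool.Agent.DW54

open Pool.Agent.HR54 Pool.Agent.RT16

/-- `x` is one of `u`, `v`, `w`. -/
def In3 {U : Type} (u v w x : U) : Prop := x = u ∨ x = v ∨ x = w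

/-- The star move at `u v w`: the new vertex is `none`. -/
def starMove {U : Type} (H : SimpleGraph U) (u v w : U) : SimpleGraph (Option U) where
  Adj
    | some x, some y => H.Adj x y ∧ ¬ (In3 u v w x ∧ In3 u v w y)
    | none, some x => In3 u v w x ∨ (H.Adj x u ∧ H.Adj x v ∧ H.Adj x w)
    | some x, none => In3 u v w x ∨ (H.Adj x u ∧ H.Adj x v ∧ H.Adj x w)
    | none, none => False
  symm := ⟨by
    rintro (_ | x) (_ | y) h
    · exact h
    · exact h
    · exact h
    · exact ⟨h.1.symm, fun h' => h.2 ⟨h'.2, h'.1⟩⟩⟩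
  loopless := ⟨by
    rintro (_ | x) h
    · exact h
    · exact H.irrefl h.1⟩

/-- The graphs which arise from `K_p` by star moves at triangles. -/
inductive StarClass (p : ℕ) : (U : Type) → SimpleGraph U → Prop
  | base : StarClass p (Fin p) ⊤
  | move {U : Type} {H : SimpleGraph U} (h : StarClass p U H) (u v w : U) (huv : H.Adj u v)
      (huw : H.Adj u w) (hvw : H.Adj v w) : StarClass p (Option U) (starMove H u v w)

/-- `H` is a minor of `G`. -/
def IsMinor {U V : Type} (H : SimpleGraph U) (G : SimpleGraph V) : Prop :=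
  ∃ B : U → Set V, (∀ x, (G.induce (B x)).Connected) ∧
    (∀ x y, x ≠ y → Disjoint (B x) (B y)) ∧ ∀ x y, H.Adj x y → Touch G (B x) (B y)

/-- `T` is a set of triangles of `K_p`, no two of which have a common edge. -/
def EdgeDisj {p : ℕ} (T : Set (Finset (Fin p))) : Prop :=
  (∀ t ∈ T, t.card = 3) ∧ ∀ s ∈ T, ∀ t ∈ T, ∀ i ∈ s, ∀ j ∈ s, i ≠ j → i ∈ t → j ∈ t → s = t

/-- The graph obtained from `K_p` by Delta-Y exchanges at the triangles in `T`: their edges are
deleted, and every `t` in `T` becomes a new vertex joined to the three vertices in `t`. -/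
def deltaWye (p : ℕ) (T : Set (Finset (Fin p))) : SimpleGraph (Fin p ⊕ T) where
  Adj
    | Sum.inl i, Sum.inl j => i ≠ j ∧ ∀ t ∈ T, ¬ (i ∈ t ∧ j ∈ t)
    | Sum.inl i, Sum.inr t => i ∈ t.1
    | Sum.inr t, Sum.inl i => i ∈ t.1
    | Sum.inr _, Sum.inr _ => False
  symm := ⟨by
    rintro (i | t) (j | s) h
    · exact ⟨h.1.symm, fun t ht h' => h.2 t ht ⟨h'.2, h'.1⟩⟩
    · exact h
    · exact h
    · exact h⟩
  loopless := ⟨by
    rintro (i | t) h
    · exact h.1 rfl
    · exact h⟩

/-- Disjoint cliques of `H` have disjoint hulls. -/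
def CSep {U V : Type} (𝒞 : Set (Set V)) (v : U → V) (H : SimpleGraph U) : Prop :=
  ∀ P Q : Set U, H.IsClique P → H.IsClique Q → Disjoint P Q →
    Disjoint (hull 𝒞 (v '' P)) (hull 𝒞 (v '' Q))

end Pool.Agent.DW54
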