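import Pool.Agent.DW54.Defs

/-!
# DW54/Wye: every graph of the class has a Delta-Y graph of `K_p` as a minor

Induction on `StarClass`. Base: `T = ∅`, `B (inl i) = {i}`. Step: let `B` be the model of `deltaWye p T` in `H`. The vertices `u`, `v`, `w` of
the triangle; the only adjacencies of `starMove H u v w` which are lost are `uv`, `uw`, `vw`, and the new vertex `none` is adjacent to
`some u`, `some v`, `some w`. Unless `u`, `v`, `w` are in three branch sets which are pairwise adjacent in `deltaWye p T`, `none` can be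
added to one of the branch sets, or to none of them. Otherwise the branch sets of `u`, `v`, `w` belong to three points `a`, `b`, `c`
(a hub has no two adjacent neighbours, hubs are not adjacent), no `t ∈ T` contains two of them; `T' = T ∪ {{a,b,c}}`,
the branch set of the new hub is `{none}`.
-/

set_option autoImplicit false

namespace Pool.Agent.DW54

open Pool.Agent.HR54 Pool.Agent.RT16

theorem conn_crit {V : Type} (G : SimpleGraph V) (X : Set V) :
    (G.induce X).Connected ↔ X.Nonempty ∧ ∀ P : V → Prop,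
      (∀ x ∈ X, ∀ y ∈ X, P x → G.Adj x y → P y) → ∀ x ∈ X, ∀ y ∈ X, P x → P y := by
  constructor
  · intro h
    refine ⟨?_, ?_⟩
    · obtain ⟨x⟩ := h.nonempty
      exact ⟨x.1, x.2⟩
    · intro P hP x hx y hy hPx
      have key : ∀ (a b : X), (G.induce X).Walk a b → P a.1 → P b.1 := by
        intro a b q
        induction q with
        | nil => exact id
        | cons hab _ ih => exact fun ha => ih (hP _ (Subtype.prop _) _ (Subtype.prop _) ha hab)
      obtain ⟨q⟩ := h.preconnected ⟨x, hx⟩ ⟨y, hy⟩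
      exact key _ _ q hPx
  · rintro ⟨⟨x0, hx0⟩, h⟩
    refine { preconnected := ?_, nonempty := ⟨⟨x0, hx0⟩⟩ }
    rintro ⟨x, hx⟩ ⟨y, hy⟩
    obtain ⟨hy', hr⟩ := h (fun z => ∃ hz : z ∈ X, (G.induce X).Reachable ⟨x, hx⟩ ⟨z, hz⟩) (by
      rintro a ha b hb ⟨ha', hr⟩ hab
      refine ⟨hb, hr.trans (SimpleGraph.Adj.reachable ?_)⟩
      exact hab) x hx y hy ⟨hx, SimpleGraph.Reachable.refl _⟩
    exact hr

theorem conn_bUnion {U V : Type} {H : SimpleGraph U} {G : SimpleGraph V} {S : Set U}
    {D : U → Set V} (hS : (H.induce S).Connected) (hD : ∀ u, (G.induce (D u)).Connected)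
    (hT : ∀ x y, H.Adj x y → Touch G (D x) (D y)) : (G.induce (⋃ u ∈ S, D u)).Connected := by
  rw [conn_crit] at hS ⊢
  have hD' := fun u => (conn_crit G (D u)).1 (hD u)
  obtain ⟨⟨u0, hu0⟩, hS⟩ := hS
  refine ⟨?_, ?_⟩
  · obtain ⟨q, hq⟩ := (hD' u0).1
    exact ⟨q, Set.mem_biUnion hu0 hq⟩
  · intro P hP x hx y hy hPx
    simp only [Set.mem_iUnion, exists_prop] at hx hy
    obtain ⟨a, haS, hxa⟩ := hx
    obtain ⟨b, hbS, hyb⟩ := hy
    have hin : ∀ c ∈ S, ∀ s ∈ D c, ∀ t ∈ D c, P s → P t := by
      intro c hc s hs t ht hPs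
      exact (hD' c).2 P (fun s hs t ht => hP s (Set.mem_biUnion hc hs) t
        (Set.mem_biUnion hc ht)) s hs t ht hPs
    obtain ⟨z, hz, hPz⟩ := hS (fun c => ∃ s ∈ D c, P s) (by
      rintro c hc d hd ⟨s, hs, hPs⟩ hcd
      obtain ⟨s', hs', t', ht', hadj⟩ := hT c d hcd
      exact ⟨t', ht', hP s' (Set.mem_biUnion hc hs') t' (Set.mem_biUnion hd ht')
        (hin c hc s hs s' hs' hPs) hadj⟩) a haS b hbS ⟨x, hxa, hPx⟩
    exact hin b hbS z hz y hyb hPz

theorem IsMinor.trans {U V W : Type} {K : SimpleGraph W} {H : SimpleGraph U} {G : SimpleGraph V}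
    (h1 : IsMinor K H) (h2 : IsMinor H G) : IsMinor K G := by
  obtain ⟨B, hB, hBd, hBt⟩ := h1
  obtain ⟨D, hD, hDd, hDt⟩ := h2
  refine ⟨fun x => ⋃ u ∈ B x, D u, fun x => conn_bUnion (hB x) hD hDt, ?_, ?_⟩
  · intro x y hxy
    rw [Set.disjoint_left]
    intro q hq hq'
    simp only [Set.mem_iUnion, exists_prop] at hq hq'
    obtain ⟨a, ha, hqa⟩ := hq
    obtain ⟨b, hb, hqb⟩ := hq'
    by_cases hab : a = b
    · subst hab
      exact Set.disjoint_left.1 (hBd x y hxy) ha hb
    · exact Set.disjoint_left.1 (hDd a b hab) hqa hqb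
  · intro x y hxy
    obtain ⟨a, ha, b, hb, hab⟩ := hBt x y hxy
    obtain ⟨s, hs, t, ht, hst⟩ := hDt a b hab
    exact ⟨s, Set.mem_biUnion ha hs, t, Set.mem_biUnion hb ht, hst⟩

section Step

variable {U : Type} {H : SimpleGraph U} {u v w : U}

theorem conn_some {X : Set U} (hX : (H.induce X).Connected)
    (h1 : ∀ x ∈ X, ∀ y ∈ X, In3 u v w x → In3 u v w y → x = y) :
    ((starMove H u v w).induce (some '' X)).Connected := by
  rw [conn_crit] at hX ⊢
  refine ⟨hX.1.image _, ?_⟩
  rintro P hP _ ⟨x, hx, rfl⟩ _ ⟨y, hy, rfl⟩ hPx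
  refine hX.2 (fun z => P (some z)) ?_ x hx y hy hPx
  intro a ha b hb hPa hab
  refine hP (some a) ⟨a, ha, rfl⟩ (some b) ⟨b, hb, rfl⟩ hPa ⟨hab, ?_⟩
  rintro ⟨h2, h3⟩
  exact hab.ne (h1 a ha b hb h2 h3)

theorem conn_none {X : Set U} (hX : (H.induce X).Connected) (h1 : ∃ x ∈ X, In3 u v w x) :
    ((starMove H u v w).induce (insert none (some '' X))).Connected := by
  rw [conn_crit] at hX ⊢
  obtain ⟨x0, hx0, h0⟩ := h1
  have m : ∀ a ∈ X, some a ∈ insert none (some '' X) := fun a ha => Or.inr ⟨a, ha, rfl⟩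
  have m0 : (none : Option U) ∈ insert none (some '' X) := Or.inl rfl
  refine ⟨⟨none, m0⟩, ?_⟩
  intro P hP
  have hn : ∀ a ∈ X, In3 u v w a → P none → P (some a) := fun a ha h3 hPn =>
    hP none m0 (some a) (m a ha) hPn (Or.inl h3)
  have hn' : ∀ a ∈ X, In3 u v w a → P (some a) → P none := fun a ha h3 hPn =>
    hP (some a) (m a ha) none m0 hPn (Or.inl h3)
  have hs : ∀ a ∈ X, ∀ b ∈ X, P (some a) → P (some b) := by
    intro x hx y hy hPx
    refine hX.2 (fun z => P (some z)) ?_ x hx y hy hPx
    intro a ha b hb hPa hab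
    by_cases h2 : In3 u v w a ∧ In3 u v w b
    · exact hn b hb h2.2 (hn' a ha h2.1 hPa)
    · exact hP (some a) (m a ha) (some b) (m b hb) hPa ⟨hab, h2⟩
  rintro x (rfl | ⟨x, hx, rfl⟩) y (rfl | ⟨y, hy, rfl⟩) hPx
  · exact hPx
  · exact hs x0 hx0 y hy (hn x0 hx0 h0 hPx)
  · exact hn' x0 hx0 h0 (hs x hx x0 hx0 hPx)
  · exact hs x hx y hy hPx

theorem touch_some {X Y : Set U} (hT : Touch H X Y)
    (h1 : ∀ x ∈ X, ∀ y ∈ Y, In3 u v w x → In3 u v w y → x = y) :
    Touch (starMove H u v w) (some '' X) (some '' Y) := by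
  obtain ⟨x, hx, y, hy, hxy⟩ := hT
  exact ⟨some x, ⟨x, hx, rfl⟩, some y, ⟨y, hy, rfl⟩, hxy,
    fun h => hxy.ne (h1 x hx y hy h.1 h.2)⟩

theorem touch_none {X Y : Set U} (hT : Touch H X Y) :
    Touch (starMove H u v w) (insert none (some '' X)) (some '' Y) := by
  obtain ⟨x, hx, y, hy, hxy⟩ := hT
  by_cases h : In3 u v w x ∧ In3 u v w y
  · exact ⟨none, Or.inl rfl, some y, ⟨y, hy, rfl⟩, Or.inl h.2⟩
  · exact ⟨some x, Or.inr ⟨x, hx, rfl⟩, some y, ⟨y, hy, rfl⟩, hxy, h⟩

theorem disj_some {X Y : Set U} (h : Disjoint X Y) : Disjoint (some '' X) (some '' Y) := by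
  rw [Set.disjoint_left]
  rintro _ ⟨x, hx, rfl⟩ ⟨y, hy, h2⟩
  rw [Option.some.inj h2] at hy
  exact Set.disjoint_left.1 h hx hy

theorem disj_none {X Y : Set U} (h : Disjoint X Y) :
    Disjoint (insert none (some '' X)) (some '' Y) := by
  rw [Set.disjoint_left]
  rintro _ (rfl | ⟨x, hx, rfl⟩) ⟨y, hy, h2⟩
  · exact absurd h2 (by simp)
  · rw [Option.some.inj h2] at hy
    exact Set.disjoint_left.1 h hx hy

variable {I : Type} {K : SimpleGraph I} {B : I → Set U}

theorem keep (hc : ∀ i, (H.induce (B i)).Connected) (hd : ∀ i j, i ≠ j → Disjoint (B i) (B j))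
    (ht : ∀ i j, K.Adj i j → Touch H (B i) (B j))
    (hcov : ∀ x y i j, In3 u v w x → In3 u v w y → x ≠ y → x ∈ B i → y ∈ B j →
      ¬ (i = j ∨ K.Adj i j)) : IsMinor K (starMove H u v w) := by
  refine ⟨fun i => some '' B i, fun i => conn_some (hc i) ?_, fun i j hij => disj_some (hd i j hij),
    fun i j hij => touch_some (ht i j hij) ?_⟩
  · intro x hx y hy h1 h2
    by_contra hne
    exact hcov x y i i h1 h2 hne hx hy (Or.inl rfl)
  · intro x hx y hy h1 h2
    by_contra hne
    exact hcov x y i j h1 h2 hne hx hy (Or.inr hij)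

theorem absorb (hc : ∀ i, (H.induce (B i)).Connected) (hd : ∀ i j, i ≠ j → Disjoint (B i) (B j))
    (ht : ∀ i j, K.Adj i j → Touch H (B i) (B j)) (α : I) (ha : ∃ x ∈ B α, In3 u v w x)
    (hcov : ∀ x y i j, In3 u v w x → In3 u v w y → x ≠ y → x ∈ B i → y ∈ B j →
      (i = j ∨ K.Adj i j) → i = α ∨ j = α) : IsMinor K (starMove H u v w) := by
  classical
  obtain ⟨B', hB'⟩ : ∃ B' : I → Set (Option U), B' = fun i => if i = α then
    insert none (some '' B i) else some '' B i := ⟨_, rfl⟩
  have e1 : B' α = insert none (some '' B α) := by rw [hB']; exact if_pos rfl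
  have e2 : ∀ i, i ≠ α → B' i = some '' B i := fun i hi => by rw [hB']; exact if_neg hi
  refine ⟨B', ?_, ?_, ?_⟩
  · intro i
    by_cases hi : i = α
    · rw [hi, e1]
      exact conn_none (hc α) ha
    · rw [e2 i hi]
      refine conn_some (hc i) ?_
      intro x hx y hy h1 h2
      by_contra hne
      rcases hcov x y i i h1 h2 hne hx hy (Or.inl rfl) with h | h
      · exact hi h
      · exact hi h
  · intro i j hij
    by_cases hi : i = α
    · subst hi
      rw [e1, e2 j hij.symm]
      exact disj_none (hd i j hij)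
    · by_cases hj : j = α
      · subst hj
        rw [e1, e2 i hi]
        exact (disj_none (hd i j hij).symm).symm
      · rw [e2 i hi, e2 j hj]
        exact disj_some (hd i j hij)
  · intro i j hij
    by_cases hi : i = α
    · subst hi
      rw [e1, e2 j hij.ne.symm]
      exact touch_none (ht i j hij)
    · by_cases hj : j = α
      · subst hj
        rw [e1, e2 i hi]
        exact (touch_none (ht i j hij).symm).symm
      · rw [e2 i hi, e2 j hj]
        refine touch_some (ht i j hij) ?_
        intro x hx y hy h1 h2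
        by_contra hne
        rcases hcov x y i j h1 h2 hne hx hy (Or.inr hij) with h | h
        · exact hi h
        · exact hj h

/-- If `u`, `v`, `w` are not in three branch sets which are pairwise adjacent, the minor survives. -/
theorem survive (huv : H.Adj u v) (huw : H.Adj u w) (hvw : H.Adj v w)
    (hc : ∀ i, (H.induce (B i)).Connected) (hd : ∀ i j, i ≠ j → Disjoint (B i) (B j))
    (ht : ∀ i j, K.Adj i j → Touch H (B i) (B j))
    (hno : ¬ ∃ i j k, u ∈ B i ∧ v ∈ B j ∧ w ∈ B k ∧ K.Adj i j ∧ K.Adj i k ∧ K.Adj j k) :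
    IsMinor K (starMove H u v w) := by
  have huniq : ∀ x i j, x ∈ B i → x ∈ B j → i = j := by
    intro x i j hi hj
    by_contra hne
    exact Set.disjoint_left.1 (hd i j hne) hi hj
  by_cases h0 : ∃ x y i j, In3 u v w x ∧ In3 u v w y ∧ x ≠ y ∧ x ∈ B i ∧ y ∈ B j ∧
      (i = j ∨ K.Adj i j)
  · obtain ⟨x, y, i, j, hx, hy, hxy, hxi, hyj, hl⟩ := h0
    -- the third vertex
    obtain ⟨z, hz, hzx, hzy, hall⟩ : ∃ z, In3 u v w z ∧ z ≠ x ∧ z ≠ y ∧
        ∀ t, In3 u v w t → t = x ∨ t = y ∨ t = z := by
      have n1 := huv.ne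
      have n2 := huw.ne
      have n3 := hvw.ne
      rcases hx with rfl | rfl | rfl <;> rcases hy with rfl | rfl | rfl
      · exact absurd rfl hxy
      · exact ⟨w, Or.inr (Or.inr rfl), n2.symm, n3.symm, fun t ht => ht⟩
      · exact ⟨v, Or.inr (Or.inl rfl), n1.symm, n3, fun t ht => by
          rcases ht with rfl | rfl | rfl
          · exact Or.inl rfl
          · exact Or.inr (Or.inr rfl)
          · exact Or.inr (Or.inl rfl)⟩
      · exact ⟨w, Or.inr (Or.inr rfl), n3.symm, n2.symm, fun t ht => by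
          rcases ht with rfl | rfl | rfl
          · exact Or.inr (Or.inl rfl)
          · exact Or.inl rfl
          · exact Or.inr (Or.inr rfl)⟩
      · exact absurd rfl hxy
      · exact ⟨u, Or.inl rfl, n1, n2, fun t ht => by
          rcases ht with rfl | rfl | rfl
          · exact Or.inr (Or.inr rfl)
          · exact Or.inl rfl
          · exact Or.inr (Or.inl rfl)⟩
      · exact ⟨v, Or.inr (Or.inl rfl), n3, n1.symm, fun t ht => by
          rcases ht with rfl | rfl | rfl
          · exact Or.inr (Or.inl rfl)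
          · exact Or.inr (Or.inr rfl)
          · exact Or.inl rfl⟩
      · exact ⟨u, Or.inl rfl, n2, n1, fun t ht => by
          rcases ht with rfl | rfl | rfl
          · exact Or.inr (Or.inr rfl)
          · exact Or.inr (Or.inl rfl)
          · exact Or.inl rfl⟩
      · exact absurd rfl hxy
    by_cases hzB : ∃ k, z ∈ B k
    · obtain ⟨k, hzk⟩ := hzB
      -- a general form of the covering condition
      have cover : ∀ α, (i = α ∨ j = α) → ((i = k ∨ K.Adj i k) → i = α ∨ k = α) →
          ((j = k ∨ K.Adj j k) → j = α ∨ k = α) →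
          ∀ s t a b, In3 u v w s → In3 u v w t → s ≠ t → s ∈ B a → t ∈ B b →
            (a = b ∨ K.Adj a b) → a = α ∨ b = α := by
        intro α c1 c2 c3 s t a b hs ht' hst hsa htb hab
        rcases hall s hs with rfl | rfl | rfl <;> rcases hall t ht' with rfl | rfl | rfl
        · exact absurd rfl hst
        · rw [huniq s a i hsa hxi, huniq t b j htb hyj]
          exact c1
        · rw [huniq s a i hsa hxi, huniq t b k htb hzk] at hab ⊢
          exact c2 hab
        · rw [huniq s a j hsa hyj, huniq t b i htb hxi]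
          exact c1.symm
        · exact absurd rfl hst
        · rw [huniq s a j hsa hyj, huniq t b k htb hzk] at hab ⊢
          exact c3 hab
        · rw [huniq s a k hsa hzk, huniq t b i htb hxi] at hab ⊢
          exact (c2 (hab.imp Eq.symm (fun h => h.symm))).symm
        · rw [huniq s a k hsa hzk, huniq t b j htb hyj] at hab ⊢
          exact (c3 (hab.imp Eq.symm (fun h => h.symm))).symm
        · exact absurd rfl hst
      by_cases hij : i = j
      · exact absorb hc hd ht i ⟨x, hxi, hx⟩ (cover i (Or.inl rfl) (fun _ => Or.inl rfl)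
          (fun _ => Or.inl hij.symm))
      · have hadj : K.Adj i j := hl.resolve_left hij
        by_cases hik : i = k
        · exact absorb hc hd ht i ⟨x, hxi, hx⟩ (cover i (Or.inl rfl) (fun _ => Or.inl rfl)
            (fun _ => Or.inr hik.symm))
        · by_cases hjk : j = k
          · exact absorb hc hd ht j ⟨y, hyj, hy⟩ (cover j (Or.inr rfl)
              (fun _ => Or.inr hjk.symm) (fun _ => Or.inl rfl))
          · by_cases h1 : K.Adj i k
            · by_cases h2 : K.Adj j k
              · exfalso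
                apply hno
                rcases hx with rfl | rfl | rfl <;> rcases hy with rfl | rfl | rfl <;>
                  rcases hz with rfl | rfl | rfl
                all_goals first
                  | exact absurd rfl hxy
                  | exact absurd rfl hzx
                  | exact absurd rfl hzy
                  | exact ⟨_, _, _, hxi, hyj, hzk, hadj, h1, h2⟩
                  | exact ⟨_, _, _, hxi, hzk, hyj, h1, hadj, h2.symm⟩
                  | exact ⟨_, _, _, hyj, hxi, hzk, hadj.symm, h2, h1⟩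
                  | exact ⟨_, _, _, hyj, hzk, hxi, h2, hadj.symm, h1.symm⟩
                  | exact ⟨_, _, _, hzk, hxi, hyj, h1.symm, h2.symm, hadj⟩
                  | exact ⟨_, _, _, hzk, hyj, hxi, h2.symm, h1.symm, hadj.symm⟩
              · exact absorb hc hd ht i ⟨x, hxi, hx⟩ (cover i (Or.inl rfl) (fun _ => Or.inl rfl)
                  (fun h => absurd h (by rintro (h | h); exacts [hjk h, h2 h])))
            · exact absorb hc hd ht j ⟨y, hyj, hy⟩ (cover j (Or.inr rfl)
                (fun h => absurd h (by rintro (h | h); exacts [hik h, h1 h]))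
                (fun _ => Or.inl rfl))
    · refine absorb hc hd ht i ⟨x, hxi, hx⟩ ?_
      intro s t a b hs ht' hst hsa htb hab
      rcases hall s hs with rfl | rfl | rfl
      · exact Or.inl (huniq s a i hsa hxi)
      · rcases hall t ht' with rfl | rfl | rfl
        · exact Or.inr (huniq t b i htb hxi)
        · exact absurd rfl hst
        · exact absurd ⟨b, htb⟩ hzB
      · exact absurd ⟨a, hsa⟩ hzB
  · refine keep hc hd ht ?_
    intro x y i j hx hy hxy hxi hyj hl
    exact h0 ⟨x, y, i, j, hx, hy, hxy, hxi, hyj, hl⟩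

end Step

/-- A triangle of a Delta-Y graph consists of points. -/
theorem tri_points {p : ℕ} {T : Set (Finset (Fin p))} {i j k : Fin p ⊕ T}
    (hij : (deltaWye p T).Adj i j) (hik : (deltaWye p T).Adj i k)
    (hjk : (deltaWye p T).Adj j k) : ∃ a, i = Sum.inl a := by
  rcases i with a | t
  · exact ⟨a, rfl⟩
  · exfalso
    rcases j with b | s
    · rcases k with c | r
      · exact hjk.2 t.1 t.2 ⟨hij, hik⟩
      · exact hik
    · exact hij

theorem wye_new {p : ℕ} {U : Type} {H : SimpleGraph U} {u v w : U}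
    {T : Set (Finset (Fin p))} (hT : EdgeDisj T) {B : Fin p ⊕ T → Set U}
    (hc : ∀ i, (H.induce (B i)).Connected) (hd : ∀ i j, i ≠ j → Disjoint (B i) (B j))
    (ht : ∀ i j, (deltaWye p T).Adj i j → Touch H (B i) (B j)) {a b c : Fin p}
    (hu : u ∈ B (Sum.inl a)) (hv : v ∈ B (Sum.inl b)) (hw : w ∈ B (Sum.inl c))
    (hab : (deltaWye p T).Adj (Sum.inl a) (Sum.inl b))
    (hac : (deltaWye p T).Adj (Sum.inl a) (Sum.inl c))
    (hbc : (deltaWye p T).Adj (Sum.inl b) (Sum.inl c)) :
    ∃ T' : Set (Finset (Fin p)), EdgeDisj T' ∧ IsMinor (deltaWye p T') (starMove H u v w) := by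
  classical
  have nab : a ≠ b := hab.1
  have nac : a ≠ c := hac.1
  have nbc : b ≠ c := hbc.1
  have huniq : ∀ x i j, x ∈ B i → x ∈ B j → i = j := by
    intro x i j hi hj
    by_contra hne
    exact Set.disjoint_left.1 (hd i j hne) hi hj
  -- no member of `T` contains two of `a`, `b`, `c`
  have hno : ∀ t ∈ T, ∀ x ∈ ({a, b, c} : Finset (Fin p)), ∀ y ∈ ({a, b, c} : Finset (Fin p)),
      x ≠ y → ¬ (x ∈ t ∧ y ∈ t) := by
    intro t ht' x hx y hy hxy
    simp only [Finset.mem_insert, Finset.mem_singleton] at hx hy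
    rcases hx with rfl | rfl | rfl <;> rcases hy with rfl | rfl | rfl
    · exact absurd rfl hxy
    · exact hab.2 t ht'
    · exact hac.2 t ht'
    · exact fun h => hab.2 t ht' ⟨h.2, h.1⟩
    · exact absurd rfl hxy
    · exact hbc.2 t ht'
    · exact fun h => hac.2 t ht' ⟨h.2, h.1⟩
    · exact fun h => hbc.2 t ht' ⟨h.2, h.1⟩
    · exact absurd rfl hxy
  have hcard : ({a, b, c} : Finset (Fin p)).card = 3 := Finset.card_eq_three.2
    ⟨a, b, c, nab, nac, nbc, rfl⟩
  -- which branch sets contain `u`, `v`, `w`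
  have h3 : ∀ x i, In3 u v w x → x ∈ B i → ∃ d ∈ ({a, b, c} : Finset (Fin p)), i = Sum.inl d := by
    intro x i hx hxi
    rcases hx with rfl | rfl | rfl
    · exact ⟨a, by simp, huniq x _ _ hxi hu⟩
    · exact ⟨b, by simp, huniq x _ _ hxi hv⟩
    · exact ⟨c, by simp, huniq x _ _ hxi hw⟩
  have h4 : ∀ i, ∀ x ∈ B i, ∀ y ∈ B i, In3 u v w x → In3 u v w y → x = y := by
    intro i x hx y hy h1 h2
    rcases h1 with rfl | rfl | rfl <;> rcases h2 with rfl | rfl | rfl
    · rfl
    · exact absurd (Sum.inl.inj ((huniq _ _ _ hx hu).symm.trans (huniq _ _ _ hy hv))) nab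
    · exact absurd (Sum.inl.inj ((huniq _ _ _ hx hu).symm.trans (huniq _ _ _ hy hw))) nac
    · exact absurd (Sum.inl.inj ((huniq _ _ _ hy hu).symm.trans (huniq _ _ _ hx hv))) nab
    · rfl
    · exact absurd (Sum.inl.inj ((huniq _ _ _ hx hv).symm.trans (huniq _ _ _ hy hw))) nbc
    · exact absurd (Sum.inl.inj ((huniq _ _ _ hy hu).symm.trans (huniq _ _ _ hx hw))) nac
    · exact absurd (Sum.inl.inj ((huniq _ _ _ hy hv).symm.trans (huniq _ _ _ hx hw))) nbc
    · rfl
  refine ⟨insert ({a, b, c} : Finset (Fin p)) T, ⟨?_, ?_⟩, ?_⟩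
  · rintro t (rfl | ht')
    · exact hcard
    · exact hT.1 t ht'
  · rintro s (rfl | hs) t (rfl | ht') x hx y hy hxy hxt hyt
    · rfl
    · exact absurd ⟨hxt, hyt⟩ (hno t ht' x hx y hy hxy)
    · exact absurd ⟨hx, hy⟩ (hno s hs x hxt y hyt hxy)
    · exact hT.2 s hs t ht' x hx y hy hxy hxt hyt
  · obtain ⟨B', hl, hr, hr'⟩ : ∃ B' : Fin p ⊕
        (insert ({a, b, c} : Finset (Fin p)) T : Set (Finset (Fin p))) → Set (Option U), (∀ x, B' (Sum.inl x) = some '' B (Sum.inl x)) ∧
        (∀ (t : (insert ({a, b, c} : Finset (Fin p)) T : Set (Finset (Fin p)))) (h : t.1 ∈ T),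
          B' (Sum.inr t) = some '' B (Sum.inr ⟨t.1, h⟩)) ∧
        (∀ t : (insert ({a, b, c} : Finset (Fin p)) T : Set (Finset (Fin p))), t.1 ∉ T →
          B' (Sum.inr t) = {none}) := by
      refine ⟨Sum.elim (fun x => some '' B (Sum.inl x)) (fun t => if h : t.1 ∈ T then
        some '' B (Sum.inr ⟨t.1, h⟩) else {none}), ?_, ?_, ?_⟩
      · intro x; rfl
      · intro t h
        simp only [Sum.elim_inr]
        rw [dif_pos h]
      · intro t h
        simp only [Sum.elim_inr]
        rw [dif_neg h]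
    have hnew : ∀ t : (insert ({a, b, c} : Finset (Fin p)) T : Set (Finset (Fin p))), t.1 ∉ T →
        t.1 = {a, b, c} := fun t h => t.2.resolve_right h
    have hdn : ∀ i, Disjoint (some '' B i) ({none} : Set (Option U)) := by
      intro i
      rw [Set.disjoint_left]
      rintro _ ⟨x, _, rfl⟩ h
      exact absurd h (by simp)
    refine ⟨B', ?_, ?_, ?_⟩
    · rintro (x | t)
      · rw [hl]
        exact conn_some (hc _) (h4 _)
      · by_cases h : t.1 ∈ T
        · rw [hr t h]
          exact conn_some (hc _) (h4 _)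
        · rw [hr' t h, conn_crit]
          refine ⟨⟨none, rfl⟩, ?_⟩
          rintro P _ x hx y hy hP
          rw [Set.mem_singleton_iff] at hx hy
          rw [hy]
          rw [hx] at hP
          exact hP
    · rintro (x | t) (y | s) hxy
      · rw [hl, hl]
        exact disj_some (hd _ _ (fun h => hxy (by rw [Sum.inl.inj h])))
      · by_cases h : s.1 ∈ T
        · rw [hl, hr s h]
          exact disj_some (hd _ _ (fun h => by simp at h))
        · rw [hl, hr' s h]
          exact hdn _
      · by_cases h : t.1 ∈ T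
        · rw [hl, hr t h]
          exact disj_some (hd _ _ (fun h => by simp at h))
        · rw [hl, hr' t h]
          exact (hdn _).symm
      · by_cases h : t.1 ∈ T
        · by_cases h' : s.1 ∈ T
          · rw [hr t h, hr s h']
            refine disj_some (hd _ _ (fun h2 => hxy ?_))
            have h5 := Subtype.ext_iff.1 (Sum.inr.inj h2)
            exact congrArg Sum.inr (Subtype.ext h5)
          · rw [hr t h, hr' s h']
            exact hdn _
        · by_cases h' : s.1 ∈ T
          · rw [hr' t h, hr s h']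
            exact (hdn _).symm
          · exact absurd (congrArg Sum.inr (Subtype.ext ((hnew t h).trans (hnew s h').symm))) hxy
    · have hpt : ∀ (x : Fin p) (t : (insert ({a, b, c} : Finset (Fin p)) T : Set (Finset (Fin p)))), x ∈ t.1 →
          Touch (starMove H u v w) (B' (Sum.inl x)) (B' (Sum.inr t)) := by
        intro x t hxt
        by_cases h : t.1 ∈ T
        · rw [hl, hr t h]
          refine touch_some (ht _ _ hxt) ?_
          intro q hq q' hq' _ h2
          obtain ⟨d, _, hd2⟩ := h3 q' _ h2 hq'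
          exact absurd hd2 (by simp)
        · rw [hl, hr' t h]
          rw [hnew t h] at hxt
          simp only [Finset.mem_insert, Finset.mem_singleton] at hxt
          rcases hxt with rfl | rfl | rfl
          · exact ⟨some u, ⟨u, hu, rfl⟩, none, rfl, Or.inl (Or.inl rfl)⟩
          · exact ⟨some v, ⟨v, hv, rfl⟩, none, rfl, Or.inl (Or.inr (Or.inl rfl))⟩
          · exact ⟨some w, ⟨w, hw, rfl⟩, none, rfl, Or.inl (Or.inr (Or.inr rfl))⟩
      rintro (x | t) (y | s) hxy
      · rw [hl, hl]
        refine touch_some (ht _ _ ⟨hxy.1, fun t ht' => hxy.2 t (Or.inr ht')⟩) ?_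
        intro q hq q' hq' h1 h2
        obtain ⟨d, hd1, hd2⟩ := h3 q _ h1 hq
        obtain ⟨e, he1, he2⟩ := h3 q' _ h2 hq'
        rw [← Sum.inl.inj hd2] at hd1
        rw [← Sum.inl.inj he2] at he1
        exact absurd ⟨hd1, he1⟩ (hxy.2 _ (Or.inl rfl))
      · exact hpt x s hxy
      · exact (hpt y t hxy).symm
      · exact absurd hxy id

theorem wye_minor {p : ℕ} {U : Type} {H : SimpleGraph U} (h : StarClass p U H) :
    ∃ T : Set (Finset (Fin p)), EdgeDisj T ∧ IsMinor (deltaWye p T) H := by
  induction h with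
  | base =>
    refine ⟨∅, ⟨fun t ht => absurd ht (Set.notMem_empty t),
      fun t ht => absurd ht (Set.notMem_empty t)⟩, ?_⟩
    refine ⟨Sum.elim (fun i => {i}) (fun _ => ∅), ?_, ?_, ?_⟩
    · rintro (i | t)
      · rw [conn_crit]
        refine ⟨⟨i, rfl⟩, ?_⟩
        rintro P _ x hx y hy hP
        simp only [Sum.elim_inl, Set.mem_singleton_iff] at hx hy
        rw [hy]
        rw [hx] at hP
        exact hP
      · exact absurd t.2 (Set.notMem_empty _)
    · rintro (i | t) (j | s) hij
      · simp only [Sum.elim_inl, Set.disjoint_singleton]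
        exact fun h => hij (by rw [h])
      · exact absurd s.2 (Set.notMem_empty _)
      · exact absurd t.2 (Set.notMem_empty _)
      · exact absurd t.2 (Set.notMem_empty _)
    · rintro (i | t) (j | s) hij
      · exact ⟨i, rfl, j, rfl, hij.1⟩
      · exact absurd s.2 (Set.notMem_empty _)
      · exact absurd t.2 (Set.notMem_empty _)
      · exact absurd t.2 (Set.notMem_empty _)
  | move h u v w huv huw hvw ih =>
    obtain ⟨T, hT, B, hc, hd, ht⟩ := ih
    by_cases hno : ∃ i j k, u ∈ B i ∧ v ∈ B j ∧ w ∈ B k ∧ (deltaWye p T).Adj i j ∧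
        (deltaWye p T).Adj i k ∧ (deltaWye p T).Adj j k
    · obtain ⟨i, j, k, hu, hv, hw, hij, hik, hjk⟩ := hno
      obtain ⟨a, rfl⟩ := tri_points hij hik hjk
      obtain ⟨b, rfl⟩ := tri_points hij.symm hjk hik
      obtain ⟨c, rfl⟩ := tri_points hik.symm hjk.symm hij
      exact wye_new hT hc hd ht hu hv hw hij hik hjk
    · exact ⟨T, hT, survive huv huw hvw hc hd ht hno⟩

end Pool.Agent.DW54
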