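import Pool.Agent.DW54.Move
import Pool.Agent.DW54.Wye

/-!
# DW54/Main: the minor theorem for the Radon property
-/

set_option autoImplicit false

namespace Pool.Agent.DW54

open Pool.Agent.HR54 Pool.Agent.RT16

theorem main {V : Type} [Finite V] {G : SimpleGraph V} {𝒞 : Set (Set V)}
    (h𝒞 : IsConvexity G 𝒞) {p : ℕ} (hR : ¬ Radon 𝒞 p) :
    ∃ (W : Type) (K : SimpleGraph W), StarClass p W K ∧ IsMinor K G ∧
      ∃ T : Set (Finset (Fin p)), EdgeDisj T ∧ IsMinor (deltaWye p T) K := by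
  obtain ⟨W, K, hK, hm⟩ := star_main h𝒞 hR
  exact ⟨W, K, hK, hm, wye_minor hK⟩

end Pool.Agent.DW54
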