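import Pool.Agent.DW54.Defs

/-!
# DW54/Move: failure of the Radon property gives a minor obtained from `K_p` by star moves

`csep_move`: replace the new vertex in the clique `P` by two vertices of the triangle which are not in `Q`. `star_main`: make
star moves at bad triangles as long as there is one (the index set injects into `V`); then the minor lemma.
-/

set_option autoImplicit false

namespace Pool.Agent.DW54

open Pool.Agent.HR54 Pool.Agent.RT16

variable {U V : Type} {G : SimpleGraph V} {𝒞 : Set (Set V)} {f : U → V} {H : SimpleGraph U}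

theorem csep_base {p : ℕ} {a : Fin p → V} (hF : Fam G 𝒞 a) :
    CSep 𝒞 a (⊤ : SimpleGraph (Fin p)) :=
  fun P Q _ _ h => hF.disj P Q h

theorem clique_part {u v w : U} {P : Set (Option U)} (hP : (starMove H u v w).IsClique P) :
    H.IsClique {x | some x ∈ P} := by
  intro x hx y hy hxy
  have h := hP hx hy (fun h => hxy (Option.some.inj h))
  exact h.1

theorem in3_one {u v w x y : U} {P : Set (Option U)} (hP : (starMove H u v w).IsClique P)
    (hx : some x ∈ P) (hy : some y ∈ P) (h1 : In3 u v w x) (h2 : In3 u v w y) : x = y := by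
  by_contra hne
  have h := hP hx hy (fun h => hne (Option.some.inj h))
  exact h.2 ⟨h1, h2⟩

theorem in3_adj {u v w x y : U} (huv : H.Adj u v) (huw : H.Adj u w) (hvw : H.Adj v w)
    (h1 : In3 u v w x) (h2 : In3 u v w y) (hne : x ≠ y) : H.Adj x y := by
  rcases h1 with rfl | rfl | rfl <;> rcases h2 with rfl | rfl | rfl
  · exact absurd rfl hne
  · exact huv
  · exact huw
  · exact huv.symm
  · exact absurd rfl hne
  · exact hvw
  · exact huw.symm
  · exact hvw.symm
  · exact absurd rfl hne

theorem adj_in3 {u v w x s : U} (h : H.Adj x u ∧ H.Adj x v ∧ H.Adj x w) (hs : In3 u v w s) :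
    H.Adj x s := by
  rcases hs with rfl | rfl | rfl
  · exact h.1
  · exact h.2.1
  · exact h.2.2

theorem image_elim (z : V) (P : Set (Option U)) (h : none ∉ P) :
    (fun o : Option U => o.elim z f) '' P = f '' {x | some x ∈ P} := by
  ext y
  constructor
  · rintro ⟨o, ho, rfl⟩
    rcases o with _ | x
    · exact absurd ho h
    · exact ⟨x, ho, rfl⟩
  · rintro ⟨x, hx, rfl⟩
    exact ⟨some x, hx, rfl⟩

/-- The case in which the new vertex belongs to `P`. -/
theorem csep_move_aux [Finite V] (h𝒞 : IsConvexity G 𝒞) (hs : CSep 𝒞 f H) {u v w : U}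
    (huv : H.Adj u v) (huw : H.Adj u w) (hvw : H.Adj v w) {z : V}
    (h1 : z ∈ hull 𝒞 {f u, f v}) (h2 : z ∈ hull 𝒞 {f u, f w}) (h3 : z ∈ hull 𝒞 {f v, f w})
    {P Q : Set (Option U)} (hP : (starMove H u v w).IsClique P)
    (hQ : (starMove H u v w).IsClique Q) (hPQ : Disjoint P Q) (hn : none ∈ P) :
    Disjoint (hull 𝒞 ((fun o : Option U => o.elim z f) '' P))
      (hull 𝒞 ((fun o : Option U => o.elim z f) '' Q)) := by
  have hnQ : none ∉ Q := Set.disjoint_left.1 hPQ hn
  obtain ⟨s, t, hs3, ht3, hst, hsQ, htQ, hz⟩ : ∃ s t, In3 u v w s ∧ In3 u v w t ∧ s ≠ t ∧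
      some s ∉ Q ∧ some t ∉ Q ∧ z ∈ hull 𝒞 {f s, f t} := by
    by_cases hu : some u ∈ Q
    · refine ⟨v, w, Or.inr (Or.inl rfl), Or.inr (Or.inr rfl), hvw.ne, ?_, ?_, h3⟩
      · intro hv
        exact huv.ne (in3_one hQ hu hv (Or.inl rfl) (Or.inr (Or.inl rfl)))
      · intro hw
        exact huw.ne (in3_one hQ hu hw (Or.inl rfl) (Or.inr (Or.inr rfl)))
    · by_cases hv : some v ∈ Q
      · refine ⟨u, w, Or.inl rfl, Or.inr (Or.inr rfl), huw.ne, hu, ?_, h2⟩
        intro hw
        exact hvw.ne (in3_one hQ hv hw (Or.inr (Or.inl rfl)) (Or.inr (Or.inr rfl)))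
      · exact ⟨u, v, Or.inl rfl, Or.inr (Or.inl rfl), huv.ne, hu, hv, h1⟩
  have hnb : ∀ x r, some x ∈ P → In3 u v w r → x ≠ r → H.Adj x r := by
    intro x r hx hr hne
    have h : (starMove H u v w).Adj none (some x) := hP hn hx (Option.some_ne_none x).symm
    rcases h with h | h
    · exact in3_adj huv huw hvw h hr hne
    · exact adj_in3 h hr
  have hP1 : H.IsClique ({x | some x ∈ P} ∪ {s, t}) := by
    rintro x (hx | hx) y (hy | hy) hxy
    · exact clique_part hP hx hy hxy
    · rcases hy with rfl | hy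
      · exact hnb x _ hx hs3 hxy
      · rw [Set.mem_singleton_iff] at hy
        subst hy
        exact hnb x _ hx ht3 hxy
    · rcases hx with rfl | hx
      · exact (hnb y _ hy hs3 hxy.symm).symm
      · rw [Set.mem_singleton_iff] at hx
        subst hx
        exact (hnb y _ hy ht3 hxy.symm).symm
    · have hx' : In3 u v w x := by
        rcases hx with rfl | hx
        · exact hs3
        · rw [Set.mem_singleton_iff] at hx
          subst hx
          exact ht3
      have hy' : In3 u v w y := by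
        rcases hy with rfl | hy
        · exact hs3
        · rw [Set.mem_singleton_iff] at hy
          subst hy
          exact ht3
      exact in3_adj huv huw hvw hx' hy' hxy
  have hdis : Disjoint ({x | some x ∈ P} ∪ {s, t}) {x | some x ∈ Q} := by
    rw [Set.disjoint_left]
    rintro x (hx | hx) hxQ
    · exact Set.disjoint_left.1 hPQ hx hxQ
    · rcases hx with rfl | hx
      · exact hsQ hxQ
      · rw [Set.mem_singleton_iff] at hx
        subst hx
        exact htQ hxQ
  have key := hs _ _ hP1 (clique_part hQ) hdis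
  rw [image_elim z Q hnQ]
  refine Set.disjoint_of_subset_left (hull_le h𝒞 ?_) key
  rintro _ ⟨o, ho, rfl⟩
  rcases o with _ | x
  · refine hull_mono 𝒞 ?_ hz
    rintro y (rfl | hy)
    · exact ⟨s, Or.inr (Or.inl rfl), rfl⟩
    · rw [Set.mem_singleton_iff.1 hy]
      exact ⟨t, Or.inr (Or.inr rfl), rfl⟩
  · exact subset_hull 𝒞 _ ⟨x, Or.inl ho, rfl⟩

theorem csep_move [Finite V] (h𝒞 : IsConvexity G 𝒞) (hs : CSep 𝒞 f H) {u v w : U}
    (huv : H.Adj u v) (huw : H.Adj u w) (hvw : H.Adj v w) {z : V}
    (h1 : z ∈ hull 𝒞 {f u, f v}) (h2 : z ∈ hull 𝒞 {f u, f w}) (h3 : z ∈ hull 𝒞 {f v, f w}) :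
    CSep 𝒞 (fun o : Option U => o.elim z f) (starMove H u v w) := by
  intro P Q hP hQ hPQ
  by_cases hn : none ∈ P
  · exact csep_move_aux h𝒞 hs huv huw hvw h1 h2 h3 hP hQ hPQ hn
  · by_cases hn' : none ∈ Q
    · exact (csep_move_aux h𝒞 hs huv huw hvw h1 h2 h3 hQ hP hPQ.symm hn').symm
    · rw [image_elim z P hn, image_elim z Q hn']
      refine hs _ _ (clique_part hP) (clique_part hQ) ?_
      rw [Set.disjoint_left]
      exact fun x hx hx' => Set.disjoint_left.1 hPQ hx hx'

theorem csep_inj (hs : CSep 𝒞 f H) : Function.Injective f := by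
  intro x y hxy
  by_contra hne
  have h := hs {x} {y} (by simp [SimpleGraph.IsClique]) (by simp [SimpleGraph.IsClique])
    (by simpa using hne)
  rw [Set.image_singleton, Set.image_singleton, ← hxy] at h
  exact Set.disjoint_left.1 h (subset_hull 𝒞 _ rfl) (subset_hull 𝒞 _ rfl)

theorem clique_pair {x y : U} (h : H.Adj x y) : H.IsClique {x, y} := by
  rintro a (rfl | ha) b (rfl | hb) hab
  · exact absurd rfl hab
  · rw [Set.mem_singleton_iff] at hb
    rw [hb]
    exact h
  · rw [Set.mem_singleton_iff] at ha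
    rw [ha]
    exact h.symm
  · rw [Set.mem_singleton_iff] at ha hb
    exact absurd (ha.trans hb.symm) hab

theorem web_of_csep [Finite V] (h𝒞 : IsConvexity G 𝒞) (hs : CSep 𝒞 f H)
    (ht : ∀ x y z, H.Adj x y → H.Adj x z → H.Adj y z →
      hull 𝒞 {f x, f y} ∩ hull 𝒞 {f x, f z} ∩ hull 𝒞 {f y, f z} = ∅) :
    Web G H f (fun x y => hull 𝒞 {f x, f y}) := by
  refine ⟨?_, ?_, ?_, ?_, ?_, ?_, ht, csep_inj hs⟩
  · intro x y
    show hull 𝒞 {f x, f y} = hull 𝒞 {f y, f x}
    rw [Set.pair_comm]
  · intro x y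
    exact subset_hull 𝒞 _ (Set.mem_insert _ _)
  · intro x y
    exact h𝒞.conn _ (hull_mem h𝒞 _)
  · intro x y z
    exact h𝒞.conn _ (h𝒞.inter _ (hull_mem h𝒞 _) _ (hull_mem h𝒞 _))
  · intro x y z w hxy hzw h1 h2 h3 h4
    have h := hs {x, y} {z, w} (clique_pair hxy) (clique_pair hzw) (by
      rw [Set.disjoint_left]
      rintro a (rfl | ha) (rfl | hb)
      · exact h1 rfl
      · exact h2 hb
      · exact h3 ha.symm
      · exact h4 (ha.symm.trans hb))
    rw [Set.image_pair, Set.image_pair] at h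
    exact h
  · intro x y z hxy hzx hzy hmem
    have h := hs {x, y} {z} (clique_pair hxy) (by simp [SimpleGraph.IsClique]) (by
      rw [Set.disjoint_left]
      rintro a (rfl | ha) hb
      · exact hzx hb.symm
      · exact hzy (hb.symm.trans ha))
    rw [Set.image_pair, Set.image_singleton] at h
    exact Set.disjoint_left.1 h hmem (subset_hull 𝒞 _ rfl)

theorem star_aux [Finite V] (h𝒞 : IsConvexity G 𝒞) {p : ℕ} (k : ℕ) :
    ∀ (U : Type) (H : SimpleGraph U) (f : U → V), StarClass p U H → CSep 𝒞 f H →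
      Nat.card V - Nat.card U = k →
      ∃ (W : Type) (K : SimpleGraph W), StarClass p W K ∧ IsMinor K G := by
  induction k using Nat.strong_induction_on with
  | _ k ih =>
    intro U H f hU hs hk
    by_cases ht : ∀ x y z, H.Adj x y → H.Adj x z → H.Adj y z →
        hull 𝒞 {f x, f y} ∩ hull 𝒞 {f x, f z} ∩ hull 𝒞 {f y, f z} = ∅
    · exact ⟨U, H, hU, minor_of_web (web_of_csep h𝒞 hs ht)⟩
    · push Not at ht
      obtain ⟨x, y, z, hxy, hxz, hyz, q, ⟨q1, q2⟩, q3⟩ := ht
      have hs' := csep_move h𝒞 hs hxy hxz hyz q1 q2 q3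
      have : Finite (Option U) := Finite.of_injective _ (csep_inj hs')
      have : Finite U := Finite.of_injective _ (csep_inj hs)
      have hc : Nat.card (Option U) = Nat.card U + 1 := Finite.card_option
      have hc' : Nat.card (Option U) ≤ Nat.card V :=
        Nat.card_le_card_of_injective _ (csep_inj hs')
      exact ih (Nat.card V - Nat.card (Option U)) (by omega) _ _ _
        (StarClass.move hU x y z hxy hxz hyz) hs' rfl

/-- If some convexity on a finite graph fails `(R_p)`, then the graph has a minor which arises from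
`K_p` by star moves. -/
theorem star_main [Finite V] (h𝒞 : IsConvexity G 𝒞) {p : ℕ} (hR : ¬ Radon 𝒞 p) :
    ∃ (W : Type) (K : SimpleGraph W), StarClass p W K ∧ IsMinor K G := by
  obtain ⟨a, hF⟩ := fam_of_not_radon h𝒞 hR
  exact star_aux h𝒞 _ (Fin p) ⊤ a StarClass.base (csep_base hF) rfl

end Pool.Agent.DW54
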