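import Pool.Agent.DW54.Main

/-!
# The Radon property and minors obtained from `K_p` by star moves

Definitions. HR54/Defs: `IsConvexity G 𝒞`, `hull 𝒞 B`, the Radon property `Radon 𝒞 p`, that is `(R_p)`, `Touch`. DW54/Defs:
`starMove H u v w` (delete the edges of the triangle `u v w`, add a vertex joined to `u`, `v`, `w` and to their common
neighbours), `StarClass p` (the graphs obtained from `K_p` by star moves at triangles), `IsMinor`, `deltaWye p T` (Delta-Y
exchanges at the edge-disjoint triangles `T` of `K_p`).
-/

set_option autoImplicit false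

namespace Pool.Agent.DW54.StarMoves

open Pool.Agent.HR54 Pool.Agent.DW54

/-- If some convexity on a finite graph `G` fails `(R_p)`, then some graph `K` obtained from `K_p` by
star moves is a minor of `G`, and `K` has a minor which arises from `K_p` by Delta-Y exchanges at
edge-disjoint triangles. -/
theorem result {V : Type} [Finite V] (G : SimpleGraph V) (𝒞 : Set (Set V))
    (h𝒞 : IsConvexity G 𝒞) (p : ℕ) (hR : ¬ Radon 𝒞 p) :
    ∃ (W : Type) (K : SimpleGraph W), StarClass p W K ∧ IsMinor K G ∧
      ∃ T : Set (Finset (Fin p)), EdgeDisj T ∧ IsMinor (deltaWye p T) K :=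
  main h𝒞 hR

end Pool.Agent.DW54.StarMoves
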